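import Pool.Agent.helper3.FS.SpecE

/-! fse:FDV (helper57): dividing by finitely many (double) zeros. -/

set_option autoImplicit false

open Complex Metric Set Filter Topology MeasureTheory
open HY (UD T S hd UN RM)
open RT

noncomputable section

namespace FSE

lemma FDV_one (hQ : RT.QDV_stmt) (hM : HY.MOB_stmt) (h : ℂ → ℂ) (E : Finset ℂ) (hd : DifferentiableOn ℂ h UD)
    (hm : MapsTo h UD (closedBall 0 1)) (hE : ∀ x ∈ E, x ∈ UD ∧ h x = 0) :
    ∃ g : ℂ → ℂ, DifferentiableOn ℂ g UD ∧ MapsTo g UD (closedBall 0 1) ∧ ∀ y ∈ UD, h y = g y * ∏ x ∈ E, T x y := by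
  classical
  obtain ⟨g, hg, hgh⟩ := (hQ h E hd hE).1
  have hUDo : IsOpen UD := isOpen_ball
  -- off `E`
  have hoff : ∀ y ∈ UD, y ∉ E → ‖g y‖ ≤ 1 := by
    intro y hy hyE
    obtain ⟨h1, h2, h3, h4, h5, h6, h7, h8, h9, h10, -⟩ := hM y hy
    have hdc : DifferentiableOn ℂ (fun z => h (S y z)) UD := hd.comp h5 (fun z hz => (h1 z hz).2.1)
    have hmc : MapsTo (fun z => h (S y z)) UD (closedBall 0 1) := fun z hz => hm (h1 z hz).2.1
    have hz : ∀ x ∈ E.image (T y), x ∈ UD ∧ (fun z => h (S y z)) x = 0 := by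
      intro x hx
      obtain ⟨x', hx', rfl⟩ := Finset.mem_image.mp hx
      have hxU := (hE x' hx').1
      refine ⟨(h1 x' hxU).1, ?_⟩
      show h (S y (T y x')) = 0
      rw [(h1 x' hxU).2.2.1]
      exact (hE x' hx').2
    have hle := (hQ _ _ hdc hz).2 hmc
    simp only [h3] at hle
    rw [Finset.prod_image (fun a ha b hb hab => h6 (hE a ha).1 (hE b hb).1 hab)] at hle
    have heq : ∏ x ∈ E, ‖T y x‖ = ‖∏ x ∈ E, T x y‖ := by
      rw [norm_prod]
      exact Finset.prod_congr rfl (fun x hx => h9 x (hE x hx).1)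
    rw [heq, hgh y hy, norm_mul] at hle
    have hpos : 0 < ‖∏ x ∈ E, T x y‖ := by
      rw [norm_pos_iff, Finset.prod_ne_zero_iff]
      intro x hx h0
      obtain ⟨k1, k2, -, -, -, k6, -⟩ := hM x (hE x hx).1
      have := k6 hy (hE x hx).1 (h0.trans k2.symm)
      exact hyE (this ▸ hx)
    have : ‖g y‖ * ‖∏ x ∈ E, T x y‖ ≤ 1 * ‖∏ x ∈ E, T x y‖ := by rw [one_mul]; exact hle
    exact le_of_mul_le_mul_right this hpos
  refine ⟨g, hg, fun y hy => ?_, hgh⟩
  rw [mem_closedBall_zero_iff]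
  by_cases hyE : y ∈ E
  · -- by continuity
    have hc : ContinuousAt g y := (hg.differentiableAt (hUDo.mem_nhds hy)).continuousAt
    have hfreq : ∃ᶠ z in 𝓝 y, ‖g z‖ ≤ 1 := by
      have h1 : ∃ᶠ z in 𝓝[≠] y, (z ∈ UD ∧ z ∉ E) := by
        have h2 : ∀ᶠ z in 𝓝[≠] y, z ∈ UD ∧ z ∉ E := by
          have h3 : ∀ᶠ z in 𝓝[≠] y, z ∈ UD := (hUDo.eventually_mem hy).filter_mono nhdsWithin_le_nhds
          have h4 : ∀ᶠ z in 𝓝[≠] y, z ∉ (E.erase y : Finset ℂ) := by
            have h5 : IsClosed ((E.erase y : Finset ℂ) : Set ℂ) := (E.erase y).finite_toSet.isClosed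
            have h6 : y ∉ ((E.erase y : Finset ℂ) : Set ℂ) := by simp
            have h7 : ∀ᶠ z in 𝓝 y, z ∉ ((E.erase y : Finset ℂ) : Set ℂ) := h5.isOpen_compl.eventually_mem h6
            exact (h7.filter_mono nhdsWithin_le_nhds).mono (fun z hz hzE => hz (Finset.mem_coe.mpr hzE))
          filter_upwards [h3, h4, self_mem_nhdsWithin] with z hz1 hz2 hz3
          refine ⟨hz1, fun hzE => hz2 (Finset.mem_erase.mpr ⟨hz3, hzE⟩)⟩
        exact h2.frequently
      exact (h1.filter_mono nhdsWithin_le_nhds).mono (fun z hz => hoff z hz.1 hz.2)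
    by_contra hcon
    push Not at hcon
    have hev : ∀ᶠ z in 𝓝 y, 1 < ‖g z‖ := hc.norm.eventually_const_lt hcon
    exact hfreq (hev.mono (fun z hz => not_le.mpr hz))
  · exact hoff y hy hyE

theorem FDV (hQ : RT.QDV_stmt) (hM : HY.MOB_stmt) : FDV_stmt := by
  classical
  intro h E hd hm hE
  refine ⟨FDV_one hQ hM h E hd hm hE, fun hder => ?_⟩
  obtain ⟨g₁, hg₁, hm₁, hh⟩ := FDV_one hQ hM h E hd hm hE
  have hUDo : IsOpen UD := isOpen_ball
  have hzero : ∀ x ∈ E, x ∈ UD ∧ g₁ x = 0 := by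
    intro x hx
    have hxU := (hE x hx).1
    refine ⟨hxU, ?_⟩
    obtain ⟨k1, k2, k3, k4, k5, k6, k7, k8, k9, k10, -⟩ := hM x hxU
    -- the other factors
    set P : ℂ → ℂ := fun y => g₁ y * ∏ x' ∈ E.erase x, T x' y with hP
    have hPd : DifferentiableAt ℂ P x := by
      have h1 : DifferentiableAt ℂ g₁ x := hg₁.differentiableAt (hUDo.mem_nhds hxU)
      have h2 : DifferentiableAt ℂ (fun y => ∏ x' ∈ E.erase x, T x' y) x := by
        refine DifferentiableAt.fun_finsetProd (fun x' hx' => ?_)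
        have := (hM x' (hE x' (Finset.mem_of_mem_erase hx')).1).2.2.2.1
        exact this.differentiableAt (hUDo.mem_nhds hxU)
      exact h1.mul h2
    have hTd : DifferentiableAt ℂ (T x) x := k4.differentiableAt (hUDo.mem_nhds hxU)
    have hev : h =ᶠ[𝓝 x] fun y => P y * T x y := by
      filter_upwards [hUDo.mem_nhds hxU] with y hy
      rw [hh y hy, hP]
      simp only
      rw [← Finset.mul_prod_erase E (fun x' => T x' y) hx]
      ring
    have h1 := hder x hx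
    rw [hev.deriv_eq, deriv_fun_mul hPd hTd, k2, mul_zero, zero_add] at h1
    have hT' : deriv (T x) x ≠ 0 := by
      rw [k10 x hxU]
      have hn : ‖x‖ < 1 := mem_ball_zero_iff.mp hxU
      have h2 : (1 : ℂ) - (‖x‖ : ℂ) ^ 2 ≠ 0 := by
        have : (0 : ℝ) < 1 - ‖x‖ ^ 2 := by nlinarith [norm_nonneg x]
        exact_mod_cast this.ne'
      have h3 : (starRingEnd ℂ) x * x = (‖x‖ : ℂ) ^ 2 := by
        rw [mul_comm, Complex.mul_conj, Complex.normSq_eq_norm_sq]; push_cast; ring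
      rw [h3]
      exact div_ne_zero h2 (pow_ne_zero 2 h2)
    have h4 : P x = 0 := (mul_eq_zero.mp h1).resolve_right hT'
    rw [hP] at h4
    simp only at h4
    refine (mul_eq_zero.mp h4).resolve_right ?_
    change ∏ x' ∈ E.erase x, T x' x ≠ 0
    rw [Finset.prod_ne_zero_iff]
    intro x' hx' h0
    have hx'E := Finset.mem_of_mem_erase hx'
    obtain ⟨l1, l2, l3, l4, l5, l6, -⟩ := hM x' (hE x' hx'E).1
    have h5 := l6 hxU (hE x' hx'E).1 (h0.trans l2.symm)
    exact (Finset.mem_erase.mp hx').1 h5.symm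
  obtain ⟨g, hg, hgm, hgh⟩ := FDV_one hQ hM g₁ E hg₁ hm₁ hzero
  refine ⟨g, hg, hgm, fun y hy => ?_⟩
  rw [hh y hy, hgh y hy]
  ring

end FSE

end
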