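import Pool.Agent.helper3.FS.SpecE

/-! fse:SCH (helper57): the tail with Green functions. -/

set_option autoImplicit false

open Complex Metric Set Filter Topology MeasureTheory
open HY (UD T S hd UN RM)
open RT

noncomputable section

namespace FSE

lemma SCH_sum (J : Finset ℕ) (F : ℕ → Finset ℂ) (f : ℕ × ℂ → ℝ) [DecidableEq (ℕ × ℂ)] :
    ∑ p ∈ J.biUnion (fun i => (F i).image (fun x => (i, x))), f p = ∑ i ∈ J, ∑ x ∈ F i, f (i, x) := by
  rw [Finset.sum_biUnion]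
  · refine Finset.sum_congr rfl fun i _ => ?_
    rw [Finset.sum_image]
    intro x _ y _ h
    exact (Prod.mk.inj h).2
  · intro i _ j _ hij
    rw [Function.onFun, Finset.disjoint_left]
    intro p hp hp'
    obtain ⟨x, -, rfl⟩ := Finset.mem_image.mp hp
    obtain ⟨y, -, h⟩ := Finset.mem_image.mp hp'
    exact hij (Prod.mk.inj h).1.symm

theorem SCH (hSAT : SAT_stmt) (hQFN : RT.QFN_stmt) (hACR : RT.ACR_stmt) (hARO : RT.ARO_stmt) : SCH_stmt := by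
  classical
  intro s ε hs hs1 hε
  obtain ⟨κ₀, hκ₀, hκ₀1, hS⟩ := hSAT s ε hs hs1 hε
  refine ⟨κ₀, hκ₀, hκ₀1, fun κ hκ hκ1 => ?_⟩
  obtain ⟨C, hC, hS'⟩ := hS κ hκ hκ1
  refine ⟨C, hC, fun n W hW I o hI y hy => ?_⟩
  set J := I.filter (fun i => ro (n + 1) < pd W y (o i)) with hJ
  obtain ⟨-, hcry, -, -, hpd, -⟩ := hACR s W hW y hy
  have hJI : ∀ i ∈ J, i ∈ I ∧ ro (n + 1) < pd W y (o i) := fun i hi => Finset.mem_filter.mp hi
  have hne : ∀ i ∈ J, y ≠ o i := by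
    intro i hi h
    have h1 := (hJI i hi).2
    have h2 := (hpd (o i) (hI.1 i (hJI i hi).1)).2.2.2.2.2 h
    rw [h2] at h1
    exact absurd h1 (not_lt.mpr (hARO.1 (n + 1)).1)
  have hcr : ∀ i ∈ J, 0 ≤ cr W (o i) ^ κ := by
    intro i hi
    exact Real.rpow_nonneg (hACR s W hW (o i) (hI.1 i (hJI i hi).1)).2.1.le _
  set M : ℝ := ∑ i ∈ J, cr W (o i) ^ κ with hM
  have hM0 : 0 ≤ M := Finset.sum_nonneg hcr
  refine le_of_forall_pos_le_add fun δ hδ => ?_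
  set ε' : ℝ := δ / (M + 1) with hε'
  have hε'0 : 0 < ε' := by positivity
  have hF : ∀ i : ℕ, ∃ F : Finset ℂ, i ∈ J → ((∀ x ∈ F, x ∈ lf W y (o i)) ∧ gr W y (o i) ≤ ∑ x ∈ F, Real.log (1 / ‖x‖) + ε') := by
    intro i
    by_cases hi : i ∈ J
    · obtain ⟨F, h1, -, h3⟩ := ((hQFN s W hs hW).1 y hy (o i) (hI.1 i (hJI i hi).1) (hne i hi)).2.2.2.2.2.2.2 ε' hε'0
      exact ⟨F, fun _ => ⟨h1, h3⟩⟩
    · exact ⟨∅, fun h => absurd h hi⟩
  choose F hF using hF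
  set X := J.biUnion (fun i => (F i).image (fun x => (i, x))) with hX
  have hXm : ∀ p ∈ X, p.1 ∈ J ∧ p.2 ∈ F p.1 := by
    intro p hp
    obtain ⟨i, hi, hp'⟩ := Finset.mem_biUnion.mp hp
    obtain ⟨x, hx, rfl⟩ := Finset.mem_image.mp hp'
    exact ⟨hi, hx⟩
  have h1 := hS' n W hW I o hI y hy X
    (fun p hp => ⟨(hJI _ (hXm p hp).1).1, (hF _ (hXm p hp).1).1 _ (hXm p hp).2⟩)
    (fun p hp => by
      have h2 := hXm p hp
      have h3 := (hpd (o p.1) (hI.1 _ (hJI _ h2.1).1)).2.1 p.2 ((hF _ h2.1).1 _ h2.2)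
      exact (hJI _ h2.1).2.trans_le h3)
  rw [hX, SCH_sum] at h1
  calc ∑ i ∈ J, gr W y (o i) * cr W (o i) ^ κ
      ≤ ∑ i ∈ J, (∑ x ∈ F i, cr W (o i) ^ κ * Real.log (1 / ‖x‖) + ε' * cr W (o i) ^ κ) := by
        refine Finset.sum_le_sum fun i hi => ?_
        have h2 := mul_le_mul_of_nonneg_right (hF i hi).2 (hcr i hi)
        rw [add_mul, mul_comm (∑ x ∈ F i, Real.log (1 / ‖x‖)), Finset.mul_sum] at h2
        exact h2
    _ = ∑ i ∈ J, ∑ x ∈ F i, cr W (o i) ^ κ * Real.log (1 / ‖x‖) + ε' * M := by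
        rw [Finset.sum_add_distrib, hM, Finset.mul_sum]
    _ ≤ C * (1 - κ / 8) ^ n * cr W y ^ κ + δ := by
        refine add_le_add h1 ?_
        rw [hε', div_mul_eq_mul_div, div_le_iff₀ (by positivity)]
        nlinarith

end FSE

end
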